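import Mathlib
import Pool.Agent.Q248.Golomb

/-!
# The seven-mark Golomb ruler and Bose-Chowla sets (MP_cb32b9)

We answer Q1 negatively: for no prime power `q`, integer `m` and residue `s` modulo `q² - 1` is
`T = {0, 1, 4, 10, 18, 23, 25}` contained, modulo `q² - 1`, in `m * Bose₂(q, 1) + s`.

Idea: from `0, 1 ∈ T` the dilation factor is invertible, and one gets an element
`γ` generating the multiplicative group of `𝔽_{q²}` with `(γ ^ t - 1) / (γ - 1) ∈ 𝔽_q` for all
`t ∈ T`.  With `γ² = u γ - e` (`u, e ∈ 𝔽_q`), the mark `4` gives `e = 1 + u + u²`, and each further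
mark gives a polynomial equation in `u` with integer coefficients.  The marks `10` and `23` force
characteristic `13`, and then the marks `23` and `25` are contradictory.
-/

namespace Pool.Agent.Results.MP_cb32b9_nt.NoSevenMarkRuler

/-- The Golomb ruler `T`. -/
def T : Finset ℤ := {0, 1, 4, 10, 18, 23, 25}

/-- `Bose₂(q, 1)` with `q = |F|`, for a quadratic extension `K` of the finite field `F` and an
element `θ` of `K`: the residues `a` modulo `q² - 1` such that `θ ^ a = θ + v` for some `v ∈ F`. -/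
def Bose (F K : Type) [Field F] [Fintype F] [Field K] [Algebra F K] (θ : K) :
    Set (ZMod (Fintype.card F ^ 2 - 1)) :=
  {a | ∃ v : F, θ ^ a.val = θ + algebraMap F K v}

section aux

variable {M : ℕ} [NeZero M] {K : Type} [Field K] {θ : K}

/-- exponential with exponent in `ZMod M` -/
def E (θ : K) (a : ZMod M) : K := θ ^ a.val

theorem E_add (hθ : θ ^ M = 1) (a b : ZMod M) : E θ (a + b) = E θ a * E θ b := by
  unfold E
  rw [← pow_add, ZMod.val_add]
  conv_rhs => rw [← Nat.mod_add_div (a.val + b.val) M, pow_add, pow_mul, hθ, one_pow, mul_one]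

theorem E_mul (hθ : θ ^ M = 1) (a : ZMod M) (n : ℕ) : E θ (a * (n : ZMod M)) = E θ a ^ n := by
  induction n with
  | zero => simp [E]
  | succ n ih => rw [Nat.cast_succ, mul_add, E_add hθ, ih, mul_one, pow_succ]

end aux

theorem coeff_zero {F K : Type} [Field F] [Field K] [Algebra F K] {γ : K}
    (hγ : ∀ v : F, algebraMap F K v ≠ γ) {a b : F}
    (h : algebraMap F K a * γ + algebraMap F K b = 0) : a = 0 := by
  by_contra ha
  apply hγ (-b / a)
  have ha' : algebraMap F K a ≠ 0 := fun h0 => ha ((algebraMap F K).injective (by rw [h0, map_zero]))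
  rw [map_div₀, map_neg, div_eq_iff ha']
  linear_combination -h

/-- Powers of `γ` in the basis `1, γ`. -/
theorem pow_eq {F K : Type} [Field F] [Field K] [Algebra F K] {γ : K} {u e : F}
    (h2 : γ ^ 2 = algebraMap F K u * γ - algebraMap F K e) (j : ℕ) :
    γ ^ (j + 1) = algebraMap F K (Q248.Golomb.H u e (j + 1)) * γ
      - algebraMap F K (e * Q248.Golomb.H u e j) := by
  induction j with
  | zero => simp [Q248.Golomb.H]
  | succ j ih =>
    have hr : Q248.Golomb.H u e (j + 1 + 1) =
      u * Q248.Golomb.H u e (j + 1) - e * Q248.Golomb.H u e j := rfl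
    rw [pow_succ, ih, hr]
    simp only [map_mul, map_sub]
    linear_combination (algebraMap F K (Q248.Golomb.H u e (j + 1))) * h2

/-- The coefficient of `γ` in `1 + γ + ⋯ + γ ^ (n - 1)`. -/
theorem sum_eq {F K : Type} [Field F] [Field K] [Algebra F K] {γ : K} {u e : F}
    (h2 : γ ^ 2 = algebraMap F K u * γ - algebraMap F K e) (n : ℕ) :
    ∃ b : F, ∑ j ∈ Finset.range (n + 1), γ ^ j =
      algebraMap F K (∑ j ∈ Finset.range (n + 1), Q248.Golomb.H u e j) * γ + algebraMap F K b := by
  induction n with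
  | zero => exact ⟨1, by simp [Q248.Golomb.H]⟩
  | succ n ih =>
    obtain ⟨b, hb⟩ := ih
    refine ⟨b - e * Q248.Golomb.H u e n, ?_⟩
    rw [Finset.sum_range_succ, hb, pow_eq h2 n, Finset.sum_range_succ _ (n + 1)]
    simp only [map_add, map_sub]
    ring

/-- No set `m * Bose₂(q, 1) + s` contains the ruler `T` modulo `q² - 1`. -/
theorem result : ∀ (F K : Type) [Field F] [Fintype F] [Field K] [Algebra F K],
    Module.finrank F K = 2 → ∀ θ : K, (∀ x : K, x ≠ 0 → ∃ n : ℕ, θ ^ n = x) →
    ∀ (m : ℤ) (s : ZMod (Fintype.card F ^ 2 - 1)),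
      ¬ ∀ t ∈ T, ∃ a ∈ Bose F K θ, (t : ZMod (Fintype.card F ^ 2 - 1)) =
        (m : ZMod (Fintype.card F ^ 2 - 1)) * a + s := by
  intro F K _ _ _ _ hrank θ hgen m s hT
  have hfd : FiniteDimensional F K := Module.finite_of_finrank_pos (by omega)
  have hfin : Finite K := Module.finite_of_finite F
  have : Fintype K := Fintype.ofFinite K
  have hcard : Fintype.card K = Fintype.card F ^ 2 := by
    rw [Module.card_eq_pow_finrank (K := F), hrank]
  have hq : 2 ≤ Fintype.card F := Fintype.one_lt_card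
  have hMpos : 0 < Fintype.card F ^ 2 - 1 := by
    have : 4 ≤ Fintype.card F ^ 2 := by nlinarith
    omega
  have hNZ : NeZero (Fintype.card F ^ 2 - 1) := ⟨hMpos.ne'⟩
  -- `θ` is nonzero and has order dividing `q² - 1`
  have hnotF : ¬ ∀ x : K, ∃ v : F, algebraMap F K v = x := by
    intro h
    have hbij : Function.Bijective (algebraMap F K) := ⟨(algebraMap F K).injective, h⟩
    have := Fintype.card_of_bijective hbij
    rw [hcard] at this
    nlinarith
  have hθ0 : θ ≠ 0 := by
    rintro rfl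
    apply hnotF
    intro x
    by_cases hx : x = 0
    · exact ⟨0, by simp [hx]⟩
    · obtain ⟨n, hn⟩ := hgen x hx
      rcases Nat.eq_zero_or_pos n with rfl | hpos
      · exact ⟨1, by rw [map_one, ← hn, pow_zero]⟩
      · rw [zero_pow hpos.ne'] at hn
        exact absurd hn.symm hx
  have hθM : θ ^ (Fintype.card F ^ 2 - 1) = 1 := by
    rw [← hcard]; exact FiniteField.pow_card_sub_one_eq_one θ hθ0
  -- the marks 0 and 1
  have hT' : ∀ t : ℕ, (t : ℤ) ∈ T → ∃ a ∈ Bose F K θ,
      (t : ZMod (Fintype.card F ^ 2 - 1)) =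
        (m : ZMod (Fintype.card F ^ 2 - 1)) * a + s := by
    intro t ht
    obtain ⟨a, ha, h⟩ := hT t ht
    exact ⟨a, ha, by rw [← h]; simp⟩
  obtain ⟨a0, ⟨v0, hv0⟩, h0⟩ := hT' 0 (by decide)
  obtain ⟨a1, ⟨v1, hv1⟩, h1⟩ := hT' 1 (by decide)
  set k : ZMod (Fintype.card F ^ 2 - 1) := a1 - a0 with hk
  have hmk : (m : ZMod (Fintype.card F ^ 2 - 1)) * k = 1 := by
    rw [hk]
    push_cast at h0 h1
    linear_combination h0 - h1
  set γ : K := E θ k with hγdef
  -- `γ` is not in `F`
  have hγF : ∀ v : F, algebraMap F K v ≠ γ := by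
    intro v hv
    apply hnotF
    have hθF : ∃ w : F, algebraMap F K w = θ := by
      refine ⟨v ^ (m : ZMod (Fintype.card F ^ 2 - 1)).val, ?_⟩
      rw [map_pow, hv, hγdef, ← E_mul hθM, ZMod.natCast_zmod_val, mul_comm, hmk]
      have h1v : 1 < Fintype.card F ^ 2 - 1 := by
        have : 4 ≤ Fintype.card F ^ 2 := by nlinarith
        omega
      have : Fact (1 < Fintype.card F ^ 2 - 1) := ⟨h1v⟩
      simp [E, ZMod.val_one]
    obtain ⟨w, hw⟩ := hθF
    intro x
    by_cases hx : x = 0
    · exact ⟨0, by simp [hx]⟩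
    · obtain ⟨n, hn⟩ := hgen x hx
      exact ⟨w ^ n, by rw [map_pow, hw, hn]⟩
  have hγ1 : γ - 1 ≠ 0 := by
    intro h
    exact hγF 1 (by rw [map_one]; linear_combination -h)
  -- the exponent identity
  have hE0 : E θ a0 ≠ 0 := pow_ne_zero _ hθ0
  have hpow : ∀ t : ℕ, (t : ℤ) ∈ T → ∃ w : F, E θ a0 * (γ ^ t - 1) = algebraMap F K w := by
    intro t ht
    obtain ⟨a, ⟨v, hv⟩, h⟩ := hT' t ht
    have ha : a = a0 + k * (t : ZMod (Fintype.card F ^ 2 - 1)) := by
      have h2 : (m : ZMod (Fintype.card F ^ 2 - 1)) * (a - a0) = (t : ZMod (Fintype.card F ^ 2 - 1)) := by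
        push_cast at h0
        linear_combination h0 - h
      calc a = a0 + (m * k) * (a - a0) := by rw [hmk]; ring
        _ = a0 + k * (m * (a - a0)) := by ring
        _ = a0 + k * (t : ZMod (Fintype.card F ^ 2 - 1)) := by rw [h2]
    refine ⟨v - v0, ?_⟩
    have h3 : E θ a = E θ a0 * γ ^ t := by rw [ha, E_add hθM, E_mul hθM]
    have h4 : E θ a = θ + algebraMap F K v := hv
    have h5 : E θ a0 = θ + algebraMap F K v0 := hv0
    rw [map_sub]
    linear_combination h4 - h3 - h5
  obtain ⟨w1, hw1⟩ := hpow 1 (by decide)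
  rw [pow_one] at hw1
  have hw10 : algebraMap F K w1 ≠ 0 := by
    rw [← hw1]; exact mul_ne_zero hE0 hγ1
  have hsum : ∀ t : ℕ, (t : ℤ) ∈ T → ∃ c : F, ∑ j ∈ Finset.range t, γ ^ j = algebraMap F K c := by
    intro t ht
    obtain ⟨w, hw⟩ := hpow t ht
    refine ⟨w / w1, ?_⟩
    rw [map_div₀, eq_div_iff hw10, ← hw1, ← hw, ← geom_sum_mul]
    ring
  -- quadratic equation of `γ`
  obtain ⟨u, e, h2⟩ : ∃ u e : F, γ ^ 2 = algebraMap F K u * γ - algebraMap F K e := by
    have hli : LinearIndependent F ![(1 : K), γ] := by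
      rw [LinearIndependent.pair_iff]
      intro a b hab
      rw [Algebra.smul_def, Algebra.smul_def, mul_one] at hab
      have hb : b = 0 := coeff_zero (a := b) (b := a) hγF (by linear_combination hab)
      subst hb
      rw [map_zero, zero_mul, add_zero] at hab
      exact ⟨(algebraMap F K).injective (by rw [hab, map_zero]), rfl⟩
    have hspan : Submodule.span F (Set.range ![(1 : K), γ]) = ⊤ := by
      apply hli.span_eq_top_of_card_eq_finrank'
      rw [hrank]; rfl
    have hmem : γ ^ 2 ∈ Submodule.span F (Set.range ![(1 : K), γ]) := by rw [hspan]; trivial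
    rw [Matrix.range_cons, Matrix.range_cons, Matrix.range_empty, Set.union_empty,
      Set.singleton_union, Submodule.mem_span_pair] at hmem
    obtain ⟨a, b, hab⟩ := hmem
    rw [Algebra.smul_def, Algebra.smul_def, mul_one] at hab
    exact ⟨b, -a, by rw [map_neg]; linear_combination -hab⟩
  have hF : ∀ t : ℕ, 0 < t → (t : ℤ) ∈ T → ∑ j ∈ Finset.range t, Q248.Golomb.H u e j = 0 := by
    intro t hpos ht
    obtain ⟨n, rfl⟩ : ∃ n, t = n + 1 := ⟨t - 1, by omega⟩
    obtain ⟨c, hc⟩ := hsum _ ht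
    obtain ⟨b, hb⟩ := sum_eq h2 n
    apply coeff_zero (b := b - c) hγF
    rw [map_sub]
    linear_combination hc - hb
  have hone := Q248.Golomb.contra u e (hF 4 (by norm_num) (by decide))
    (hF 10 (by norm_num) (by decide)) (hF 23 (by norm_num) (by decide))
    (hF 25 (by norm_num) (by decide))
  exact one_ne_zero hone

end Pool.Agent.Results.MP_cb32b9_nt.NoSevenMarkRuler
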